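import Mathlib
import Pool.Agent.R890.FF.Blk
import Pool.Agent.R545.IN.Main

set_option autoImplicit false

/-!
# Cographic 2-blocks of graphs with independence number at most six (MP_aa6b05_co)

Let `S` represent over GF(2) the cographic matroid `M*(G)` of a graph `G` in which any seven vertices
include two which are joined by an edge or by two different paths with two edges; for example, a
graph with independence number at most six.  If `S` is a 2-block then `S` has a RESTRICTION
`M*(P₁₀)` (no contraction is needed), and if it is tangential it is `M*(P₁₀)`.  The rank, the order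
and the number of vertices of odd degree are unbounded.

Proof.  A 2-block has no zero vector, so `G` has no isthmus, and it has no flow over the group of
order four which is nowhere zero.  Let `H` be a graph obtained from `G` by identification of
vertices without such a flow and without Petersen quotient, with as few edges (apart from loops) as
possible; it has no circuit with at most four edges (Kempe chains), no vertex with exactly two
edges, and at least 18 vertices of odd degree (starting library `TH362/TF`).  An argument of Ramsey
type (`Pool/Agent/R545/IN/Ramsey.lean`) gives seven independent vertices of `H`.  They are images of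
seven vertices of `G`, and no two of these are joined by an edge or by two different paths with two
edges.  Hence there is no such `H`, and `G` has a Petersen quotient.  The translation to blocks is the
one of helper890 (`R890/FF/Blk.lean`).
-/

namespace Pool.Agent.Results.MP_aa6b05_co.IndependenceNumberSix

/-- The incidence vector of the vertex `v` over GF(2): the coordinate of an edge is the number of
its ends which are `v`, modulo 2 (so loops give 0). -/
def star {V E : Type} [DecidableEq V] (src dst : E → V) (v : V) : E → ZMod 2 :=
  fun e => (if src e = v then 1 else 0) + (if dst e = v then 1 else 0)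

/-- The vectors `vec e` represent the cographic matroid of the graph: the linear relations between
them are exactly the elements of the cut space, which is spanned by the incidence vectors. -/
def RepresentsCographic {V E : Type} [DecidableEq V] [Fintype E] (src dst : E → V) {n : ℕ}
    (vec : E → Fin n → ZMod 2) : Prop :=
  ∀ x : E → ZMod 2, ∑ e, x e • vec e = 0 ↔
    x ∈ Submodule.span (ZMod 2) (Set.range (star src dst))

/-- The simple matroid represented by the set `S` of vectors over GF(2) is a 2-block: `S` has no
zero vector and no linear map to the plane over GF(2) is nonzero on all of `S`. -/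
def IsTwoBlock {n : ℕ} (S : Set (Fin n → ZMod 2)) : Prop :=
  (0 : Fin n → ZMod 2) ∉ S ∧
    ¬ ∃ L : (Fin n → ZMod 2) →ₗ[ZMod 2] (Fin 2 → ZMod 2), ∀ s ∈ S, L s ≠ 0

/-- `S` represents a tangential 2-block: it is a 2-block, and no proper minor without loops
(contract `C`, keep `T`) is a 2-block. This is the hypothesis of the frozen statement S10691. -/
def IsTangential {n : ℕ} (S : Set (Fin n → ZMod 2)) : Prop :=
  IsTwoBlock S ∧
    ∀ C T : Set (Fin n → ZMod 2), C ⊆ S → T ⊆ S → T ≠ S →
      (∀ t ∈ T, t ∉ Submodule.span (ZMod 2) C) →
      ∃ L : (Fin n → ZMod 2) →ₗ[ZMod 2] (Fin 2 → ZMod 2),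
        (∀ c ∈ C, L c = 0) ∧ ∀ t ∈ T, L t ≠ 0

/-- The cut space of the Petersen graph: vertices `0, ..., 9`, edges `0, ..., 14`. -/
def petersenCuts : Submodule (ZMod 2) (Fin 15 → ZMod 2) :=
  Submodule.span (ZMod 2) (Set.range (fun v : Fin 10 => fun k : Fin 15 =>
    if (![0,1,2,3,4,5,6,7,8,9,0,1,2,3,4] : Fin 15 → Fin 10) k = v ∨
       (![1,2,3,4,0,7,8,9,5,6,5,6,7,8,9] : Fin 15 → Fin 10) k = v
    then (1 : ZMod 2) else 0))

/-- The edge `e` joins the vertices `x` and `y`. -/
def Joins {V E : Type} (src dst : E → V) (e : E) (x y : V) : Prop :=
  (src e = x ∧ dst e = y) ∨ (src e = y ∧ dst e = x)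

/-- The vertices `x` and `y` are joined by an edge, or by two different paths with two edges (for
example, they have two common neighbours). -/
def Close {V E : Type} (src dst : E → V) (x y : V) : Prop :=
  (∃ e, Joins src dst e x y) ∨
    ∃ (e f e' f' : E) (a b : V), (e ≠ e' ∨ f ≠ f') ∧ Joins src dst e x a ∧ Joins src dst f a y ∧
      Joins src dst e' x b ∧ Joins src dst f' b y

/-- Let `S` be a set of vectors over GF(2) which represents the cographic matroid of a graph
(parallel elements are represented by the same vector).  Suppose that any seven different vertices of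
the graph include two which are joined by an edge or by two different paths with two edges.  If `S`
is a 2-block then `S` contains 15 different vectors which represent the cographic matroid of the
Petersen graph; if `S` is a tangential 2-block then `S` is the cographic matroid of the Petersen
graph, in the form of the frozen statement S10691. -/
theorem result :
    ∀ (n : ℕ) (S : Set (Fin n → ZMod 2)) (V E : Type) [Fintype V] [DecidableEq V] [Fintype E]
      [DecidableEq E] (src dst : E → V) (vec : E → Fin n → ZMod 2),
      RepresentsCographic src dst vec → Set.range vec = S →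
      (∀ x : Fin 7 → V, Function.Injective x → ∃ i j, i ≠ j ∧ Close src dst (x i) (x j)) →
      (IsTwoBlock S → ∃ t : Fin 15 → Fin n → ZMod 2,
        Set.range t ⊆ S ∧ Function.Injective t ∧
        ∀ x : Fin 15 → ZMod 2, ∑ k, x k • t k = 0 ↔ x ∈ petersenCuts) ∧
      (IsTangential S → ∃ ψ : (Fin 15 → ZMod 2) →ₗ[ZMod 2] (Fin n → ZMod 2),
        LinearMap.ker ψ = petersenCuts ∧
        ⇑ψ '' Set.range (fun k : Fin 15 => (Pi.single k (1 : ZMod 2) : Fin 15 → ZMod 2)) = S) := by
  classical
  intro n S V E _ _ _ _ src dst vec hv hr h7
  have hd : TH362.TF.N1 src dst Finset.univ →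
      TH362.TF.NZ src dst Finset.univ ∨ TH362.TF.PQ src dst Finset.univ := fun hn =>
    R545.IN.seven src dst hn h7
  have main : IsTwoBlock S → ∃ t : Fin 15 → Fin n → ZMod 2,
        Set.range t ⊆ S ∧ Function.Injective t ∧
        ∀ x : Fin 15 → ZMod 2, ∑ k, x k • t k = 0 ↔ x ∈ petersenCuts := fun h =>
    R890.FF.blk1 (hv : TH676.Blk.RepCo src dst vec) hr hd h.1 h.2
  refine ⟨main, ?_⟩
  rintro ⟨h2, htan⟩
  obtain ⟨t, ht, _, hx⟩ := main h2
  exact R890.FF.blk2 htan ht hx

end Pool.Agent.Results.MP_aa6b05_co.IndependenceNumberSix
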