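import Mathlib
import Pool.Agent.R129.Four.Bag
import Pool.Agent.TH676.Blk.Main

set_option autoImplicit false

/-!
# Cographic 2-blocks and tree decompositions with bags of small independence number (MP_aa6b05_co)

Let `S` represent over GF(2) the cographic matroid `M*(G)` of a graph `G` which has a tree
decomposition such that any six vertices of a bag include all vertices of some circuit of `G` with
two, three or four edges.  If `S` is a 2-block then it has a minor `M*(P₁₀)`, and if it is
tangential it is `M*(P₁₀)`.  Special cases: graphs of tree-independence number at most two (for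
instance all chordal graphs, all circular-arc graphs with bags covered by two cliques), and tree
decompositions in which every bag is covered by `a` cliques and `b` further vertices with
`2 a + b ≤ 5`.  The rank, the sizes of the bags and the treewidth are arbitrary.

The graph theoretic input is the theorem `R129.Four.nz_of_HasT` of helper129 (a minimal
counterexample in this class, which is closed under contractions, has no circuits of length at most
four, hence small bags), and the bridge to matroids is `TH676.Blk` of the starting library.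
-/

namespace Pool.Agent.Results.MP_aa6b05_co.TreeIndependenceTwo

/-- The incidence vector of the vertex `v` over GF(2): the coordinate of an edge is the number of
its ends which are `v`, modulo 2 (so loops give 0). -/
def star {V E : Type} [DecidableEq V] (src dst : E → V) (v : V) : E → ZMod 2 :=
  fun e => (if src e = v then 1 else 0) + (if dst e = v then 1 else 0)

/-- The vectors `vec e` represent the cographic matroid of the graph: the linear relations between
them are exactly the elements of the cut space, which is spanned by the incidence vectors. -/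
def RepresentsCographic {V E : Type} [DecidableEq V] [Fintype E] (src dst : E → V) {n : ℕ}
    (vec : E → Fin n → ZMod 2) : Prop :=
  ∀ x : E → ZMod 2, ∑ e, x e • vec e = 0 ↔
    x ∈ Submodule.span (ZMod 2) (Set.range (star src dst))

/-- The simple matroid represented by the set `S` of vectors over GF(2) is a 2-block: `S` has no
zero vector and no linear map to the plane over GF(2) is nonzero on all of `S`. -/
def IsTwoBlock {n : ℕ} (S : Set (Fin n → ZMod 2)) : Prop :=
  (0 : Fin n → ZMod 2) ∉ S ∧
    ¬ ∃ L : (Fin n → ZMod 2) →ₗ[ZMod 2] (Fin 2 → ZMod 2), ∀ s ∈ S, L s ≠ 0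

/-- `S` represents a tangential 2-block: it is a 2-block, and no proper minor without loops
(contract `C`, keep `T`) is a 2-block. This is the hypothesis of the frozen statement S10691. -/
def IsTangential {n : ℕ} (S : Set (Fin n → ZMod 2)) : Prop :=
  IsTwoBlock S ∧
    ∀ C T : Set (Fin n → ZMod 2), C ⊆ S → T ⊆ S → T ≠ S →
      (∀ t ∈ T, t ∉ Submodule.span (ZMod 2) C) →
      ∃ L : (Fin n → ZMod 2) →ₗ[ZMod 2] (Fin 2 → ZMod 2),
        (∀ c ∈ C, L c = 0) ∧ ∀ t ∈ T, L t ≠ 0

/-- The cut space of the Petersen graph: vertices `0, ..., 9`, edges `0, ..., 14`. -/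
def petersenCuts : Submodule (ZMod 2) (Fin 15 → ZMod 2) :=
  Submodule.span (ZMod 2) (Set.range (fun v : Fin 10 => fun k : Fin 15 =>
    if (![0,1,2,3,4,5,6,7,8,9,0,1,2,3,4] : Fin 15 → Fin 10) k = v ∨
       (![1,2,3,4,0,7,8,9,5,6,5,6,7,8,9] : Fin 15 → Fin 10) k = v
    then (1 : ZMod 2) else 0))

/-- A tree decomposition of the graph, with bags `bag i` for the nodes `i` of the tree `T`. -/
def IsTreeDecomposition {V E ι : Type} (src dst : E → V) (T : SimpleGraph ι)
    (bag : ι → Finset V) : Prop :=
  T.IsTree ∧ (∀ v, ∃ i, v ∈ bag i) ∧ (∀ e, ∃ i, src e ∈ bag i ∧ dst e ∈ bag i) ∧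
    ∀ (i j : ι) (p : T.Walk i j), p.IsPath → ∀ k ∈ p.support, ∀ v, v ∈ bag i → v ∈ bag j →
      v ∈ bag k

/-- The edge `e` joins `x` and `y`. -/
def Joins {V E : Type} (src dst : E → V) (e : E) (x y : V) : Prop :=
  (src e = x ∧ dst e = y) ∨ (src e = y ∧ dst e = x)

/-- All vertices of some circuit with `k + 2 = 2, 3` or `4` edges are in `S`: the vertices `v i` are
distinct, the edges `e i` are distinct, and `e i` joins `v i` and `v (i + 1)` (modulo `k + 2`). -/
def HasShortCircuit {V E : Type} (src dst : E → V) (S : Finset V) : Prop :=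
  ∃ k, k ≤ 2 ∧ ∃ (v : Fin (k + 2) → V) (e : Fin (k + 2) → E), Function.Injective v ∧
    Function.Injective e ∧ ∀ i, v i ∈ S ∧ Joins src dst (e i) (v i) (v (i + 1))

/-- Conclusion: if `S` is a 2-block then the minor of `S` for some `C ⊆ S` and 15 elements of `S` is
the cographic matroid of the Petersen graph; if `S` is a tangential 2-block then `S` is the
cographic matroid of the Petersen graph, in the form of the frozen statement S10691. -/
def Conclusion {n : ℕ} (S : Set (Fin n → ZMod 2)) : Prop :=
  (IsTwoBlock S → ∃ (C : Set (Fin n → ZMod 2)) (t : Fin 15 → Fin n → ZMod 2),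
    C ⊆ S ∧ Set.range t ⊆ S ∧ Function.Injective t ∧
    ∀ x : Fin 15 → ZMod 2, ∑ k, x k • t k ∈ Submodule.span (ZMod 2) C ↔ x ∈ petersenCuts) ∧
  (IsTangential S → ∃ ψ : (Fin 15 → ZMod 2) →ₗ[ZMod 2] (Fin n → ZMod 2),
    LinearMap.ker ψ = petersenCuts ∧
    ⇑ψ '' Set.range (fun k : Fin 15 => (Pi.single k (1 : ZMod 2) : Fin 15 → ZMod 2)) = S)

/-- **Theorem.** Let `S` be a set of vectors over GF(2) which represents the cographic matroid of a
graph (parallel elements are represented by the same vector), and suppose that the graph has a tree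
decomposition such that any six vertices of a bag include all vertices of a circuit with two, three
or four edges.  If `S` is a 2-block then it has a minor `M*(P₁₀)`; if `S` is a tangential 2-block
then `S` is `M*(P₁₀)`. -/
theorem result :
    ∀ (n : ℕ) (S : Set (Fin n → ZMod 2)) (V E : Type) [Fintype V] [DecidableEq V] [Fintype E]
      [DecidableEq E] (src dst : E → V) (vec : E → Fin n → ZMod 2),
      RepresentsCographic src dst vec → Set.range vec = S →
      ∀ (ι : Type) [Fintype ι] (T : SimpleGraph ι) (bag : ι → Finset V),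
      IsTreeDecomposition src dst T bag →
      (∀ i, ∀ X ⊆ bag i, X.card = 6 → HasShortCircuit src dst X) →
      Conclusion S := by
  classical
  intro n S V E _ _ _ _ src dst vec hv hr ι _ T bag hT hX
  have hv' : TH676.Blk.RepCo src dst vec := hv
  have hPC : TH676.Blk.PC = petersenCuts := rfl
  have main : IsTwoBlock S → ∃ (C : Set (Fin n → ZMod 2)) (t : Fin 15 → Fin n → ZMod 2),
        C ⊆ S ∧ Set.range t ⊆ S ∧ Function.Injective t ∧
        ∀ x : Fin 15 → ZMod 2, ∑ k, x k • t k ∈ Submodule.span (ZMod 2) C ↔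
          x ∈ TH676.Blk.PC := by
    rintro ⟨hz, hL⟩
    have h0 : ∀ e, vec e ≠ 0 := by
      intro e he
      apply hz
      rw [← hr, ← he]
      exact ⟨e, rfl⟩
    have hnz : ¬ TH499.TF.NZ src dst := by
      intro h
      obtain ⟨L, hL'⟩ := hv'.map h
      apply hL
      refine ⟨L, fun s hs => ?_⟩
      rw [← hr] at hs
      obtain ⟨e, rfl⟩ := hs
      exact hL' e
    have hPM : TH499.TF.PM src dst := by
      by_contra hPM
      obtain ⟨t1, _, t2, t3⟩ := hT
      have hTD : Pool.Agent.R129.Four.HasT src dst := Pool.Agent.R129.Four.HasT.of_tree t1 t3 t2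
        (fun i Y hYX hno => by
          by_contra hcon
          push Not at hcon
          obtain ⟨Y', hY', hcard⟩ := Finset.exists_subset_card_eq (show 6 ≤ Y.card by omega)
          obtain ⟨k, hk, v, e, hv1, he, hA⟩ := hX i Y' (hY'.trans hYX) hcard
          exact hno ⟨k, hk, v, e, hv1, he, fun i => ⟨hY' (hA i).1, (hA i).2⟩⟩)
      exact hnz (Pool.Agent.R129.Four.nz_of_HasT hTD hPM (hv'.br h0))
    obtain ⟨D, ed, hx⟩ := hv'.minor hPM
    refine ⟨vec '' (D : Set E), fun k => vec (ed k), ?_, ?_, ?_, hx⟩
    · rintro _ ⟨e, _, rfl⟩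
      rw [← hr]
      exact ⟨e, rfl⟩
    · rintro _ ⟨k, rfl⟩
      rw [← hr]
      exact ⟨ed k, rfl⟩
    · intro k l hkl
      by_contra hne
      apply TH676.Blk.pair_not_mem k l hne
      rw [← hx]
      have : ∑ m, (Pi.single k 1 + Pi.single l 1 : Fin 15 → ZMod 2) m • vec (ed m) = 0 := by
        simp only [Pi.add_apply, add_smul]
        rw [Finset.sum_add_distrib]
        simp only [Pi.single_apply, ite_smul, one_smul, zero_smul, Finset.sum_ite_eq',
          Finset.mem_univ, if_true]
        have h3 : vec (ed k) = vec (ed l) := hkl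
        rw [h3]
        funext i
        exact CharTwo.add_self_eq_zero _
      rw [this]
      exact Submodule.zero_mem _
  refine ⟨main, ?_⟩
  rintro ⟨h2, htan⟩
  obtain ⟨C, t, hC, ht, hinj, hx⟩ := main h2
  -- a single element is not in the span of `C`
  have hsum1 : ∀ k, ∑ m, (Pi.single k 1 : Fin 15 → ZMod 2) m • t m = t k := by
    intro k
    simp only [Pi.single_apply, ite_smul, one_smul, zero_smul, Finset.sum_ite_eq',
      Finset.mem_univ, if_true]
  have hsp : ∀ k, t k ∉ Submodule.span (ZMod 2) C := by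
    intro k hk
    apply TH676.Blk.single_not_mem k
    rw [← hx, hsum1]
    exact hk
  have hTS : Set.range t = S := by
    by_contra hne
    obtain ⟨L, hL1, hL2⟩ := htan C (Set.range t) hC ht hne (by
      rintro _ ⟨k, rfl⟩
      exact hsp k)
    obtain ⟨k, hk⟩ := TH676.Blk.pet_flow (fun k => ((L (t k)) 0, (L (t k)) 1)) (by
      intro x hxP
      have h3 := (hx x).mpr hxP
      have h4 : L (∑ k, x k • t k) = 0 := by
        have hle : Submodule.span (ZMod 2) C ≤ LinearMap.ker L :=
          Submodule.span_le.mpr (fun c hc => hL1 c hc)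
        exact hle h3
      rw [map_sum] at h4
      simp only [map_smul] at h4
      have h5 := congrFun h4 0
      have h6 := congrFun h4 1
      rw [Finset.sum_apply] at h5 h6
      refine Prod.ext ?_ ?_
      · rw [Prod.fst_sum]
        exact h5
      · rw [Prod.snd_sum]
        exact h6)
    apply hL2 (t k) ⟨k, rfl⟩
    funext i
    fin_cases i
    · exact congrArg Prod.fst hk
    · exact congrArg Prod.snd hk
  have hC0 : C = ∅ := by
    rw [Set.eq_empty_iff_forall_notMem]
    intro c hc
    have h3 := hC hc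
    rw [← hTS] at h3
    obtain ⟨k, rfl⟩ := h3
    exact hsp k (Submodule.subset_span hc)
  refine ⟨Fintype.linearCombination (ZMod 2) t, ?_, ?_⟩
  · ext x
    rw [LinearMap.mem_ker, Fintype.linearCombination_apply, ← hPC, ← hx, hC0,
      Submodule.span_empty, Submodule.mem_bot]
  · ext s
    rw [← hTS]
    constructor
    · rintro ⟨_, ⟨k, rfl⟩, rfl⟩
      refine ⟨k, ?_⟩
      rw [Fintype.linearCombination_apply]
      exact (hsum1 k).symm
    · rintro ⟨k, rfl⟩
      refine ⟨_, ⟨k, rfl⟩, ?_⟩
      rw [Fintype.linearCombination_apply]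
      exact hsum1 k

open Finset in
/-- Six vertices without a circuit with at most four edges include three independent ones. -/
theorem three_independent {V E : Type} [DecidableEq V] (src dst : E → V) (S : Finset V)
    (hS : S.card = 6) (hno : ¬ HasShortCircuit src dst S) :
    ∃ I ⊆ S, I.card = 3 ∧ ∀ a ∈ I, ∀ b ∈ I, a ≠ b → ∀ e, ¬ Joins src dst e a b := by
  classical
  let A : V → V → Prop := fun a b => ∃ e, Joins src dst e a b
  have hsym : ∀ a b, A a b → A b a := fun a b ⟨e, he⟩ => ⟨e, he.symm⟩
  have htri : ∀ a ∈ S, ∀ b ∈ S, ∀ c ∈ S, a ≠ b → b ≠ c → c ≠ a → A a b → A b c → A c a →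
      False := by
    rintro a ha b hb c hc hab hbc hca ⟨e1, h1⟩ ⟨e2, h2⟩ ⟨e3, h3⟩
    apply hno
    have key : ∀ {x y z w : V} {e : E}, Joins src dst e x y → Joins src dst e z w →
        (x = z ∧ y = w) ∨ (x = w ∧ y = z) := by
      rintro x y z w e (⟨p, q⟩ | ⟨p, q⟩) (⟨r, s⟩ | ⟨r, s⟩)
      · exact Or.inl ⟨p.symm.trans r, q.symm.trans s⟩
      · exact Or.inr ⟨p.symm.trans r, q.symm.trans s⟩
      · exact Or.inr ⟨q.symm.trans s, p.symm.trans r⟩
      · exact Or.inl ⟨q.symm.trans s, p.symm.trans r⟩
    have n12 : e1 ≠ e2 := by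
      rintro rfl
      rcases key h1 h2 with ⟨p, _⟩ | ⟨p, _⟩
      · exact hab p
      · exact hca p.symm
    have n13 : e1 ≠ e3 := by
      rintro rfl
      rcases key h1 h3 with ⟨p, _⟩ | ⟨_, p⟩
      · exact hca p.symm
      · exact hbc p
    have n23 : e2 ≠ e3 := by
      rintro rfl
      rcases key h2 h3 with ⟨p, _⟩ | ⟨p, _⟩
      · exact hbc p
      · exact hab p.symm
    refine ⟨1, by norm_num, ![a, b, c], ![e1, e2, e3], ?_, ?_, fun i => ⟨?_, ?_⟩⟩
    · intro i j hij
      fin_cases i <;> fin_cases j <;> simp_all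
    · intro i j hij
      fin_cases i <;> fin_cases j <;> simp_all [eq_comm]
    · fin_cases i
      · exact ha
      · exact hb
      · exact hc
    · fin_cases i
      · exact h1
      · exact h2
      · exact h3
  -- a vertex `x`; three neighbours or three others
  obtain ⟨x, hx⟩ : S.Nonempty := Finset.card_pos.1 (by omega)
  have hsplit := Finset.card_filter_add_card_filter_not (s := S.erase x) (fun y => A x y)
  rw [Finset.card_erase_of_mem hx, hS] at hsplit
  by_cases h3 : 3 ≤ ((S.erase x).filter (fun y => A x y)).card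
  · obtain ⟨I, hI, hI3⟩ := Finset.exists_subset_card_eq h3
    refine ⟨I, fun y hy => mem_of_mem_erase (mem_filter.1 (hI hy)).1, hI3, ?_⟩
    intro a ha b hb hab e he
    have ha' := mem_filter.1 (hI ha)
    have hb' := mem_filter.1 (hI hb)
    exact htri x hx a (mem_of_mem_erase ha'.1) b (mem_of_mem_erase hb'.1)
      (ne_of_mem_erase ha'.1).symm hab (ne_of_mem_erase hb'.1) ha'.2 ⟨e, he⟩ (hsym _ _ hb'.2)
  · have h3' : 3 ≤ ((S.erase x).filter (fun y => ¬ A x y)).card := by omega
    obtain ⟨I, hI, hI3⟩ := Finset.exists_subset_card_eq h3'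
    obtain ⟨a, b, c, hab, hac, hbc, rfl⟩ := card_eq_three.1 hI3
    have hmem : ∀ y ∈ ({a, b, c} : Finset V), y ∈ S ∧ y ≠ x ∧ ¬ A x y := by
      intro y hy
      have := mem_filter.1 (hI hy)
      exact ⟨mem_of_mem_erase this.1, ne_of_mem_erase this.1, this.2⟩
    obtain ⟨ha, hax, hna⟩ := hmem a (by simp)
    obtain ⟨hb, hbx, hnb⟩ := hmem b (by simp)
    obtain ⟨hc, hcx, hnc⟩ := hmem c (by simp)
    have hpair : ∀ u v : V, u ∈ S → v ∈ S → u ≠ x → v ≠ x → u ≠ v → ¬ A x u → ¬ A x v →
        ¬ A u v → ∃ I ⊆ S, I.card = 3 ∧ ∀ a ∈ I, ∀ b ∈ I, a ≠ b → ∀ e, ¬ Joins src dst e a b := by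
      intro u v hu hv hux hvx huv h1 h2 h4
      refine ⟨{x, u, v}, ?_, card_eq_three.2 ⟨x, u, v, hux.symm, hvx.symm, huv, rfl⟩, ?_⟩
      · intro y hy
        simp only [mem_insert, mem_singleton] at hy
        rcases hy with rfl | rfl | rfl
        · exact hx
        · exact hu
        · exact hv
      · intro p hp q hq hpq e he
        have hA : A p q := ⟨e, he⟩
        simp only [mem_insert, mem_singleton] at hp hq
        rcases hp with rfl | rfl | rfl <;> rcases hq with rfl | rfl | rfl
        · exact hpq rfl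
        · exact h1 hA
        · exact h2 hA
        · exact h1 (hsym _ _ hA)
        · exact hpq rfl
        · exact h4 hA
        · exact h2 (hsym _ _ hA)
        · exact h4 (hsym _ _ hA)
        · exact hpq rfl
    by_cases c1 : A a b
    · by_cases c2 : A b c
      · exact hpair a c ha hc hax hcx hac hna hnc (fun h => htri a ha b hb c hc hab hbc hac.symm
          c1 c2 (hsym _ _ h))
      · exact hpair b c hb hc hbx hcx hbc hnb hnc c2
    · exact hpair a b ha hb hax hbx hab hna hnb c1

/-- Tree-independence number at most two. -/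
theorem treeIndependence :
    ∀ (n : ℕ) (S : Set (Fin n → ZMod 2)) (V E : Type) [Fintype V] [DecidableEq V] [Fintype E]
      [DecidableEq E] (src dst : E → V) (vec : E → Fin n → ZMod 2),
      RepresentsCographic src dst vec → Set.range vec = S →
      ∀ (ι : Type) [Fintype ι] (T : SimpleGraph ι) (bag : ι → Finset V),
      IsTreeDecomposition src dst T bag →
      (∀ i, ∀ I ⊆ bag i, (∀ a ∈ I, ∀ b ∈ I, a ≠ b → ∀ e, ¬ Joins src dst e a b) → I.card ≤ 2) →
      Conclusion S := by
  intro n S V E _ _ _ _ src dst vec hv hr ι _ T bag hT hA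
  refine result n S V E src dst vec hv hr ι T bag hT (fun i X hX h6 => ?_)
  by_contra hno
  obtain ⟨I, h1, h2, h3⟩ := three_independent src dst X h6 hno
  have := hA i I (h1.trans hX) h3
  omega

/-- Every bag is covered by `a` cliques and `b` further vertices, where `2 a + b ≤ 5`. -/
theorem cliqueBags :
    ∀ (n : ℕ) (S : Set (Fin n → ZMod 2)) (V E : Type) [Fintype V] [DecidableEq V] [Fintype E]
      [DecidableEq E] (src dst : E → V) (vec : E → Fin n → ZMod 2),
      RepresentsCographic src dst vec → Set.range vec = S →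
      ∀ (ι : Type) [Fintype ι] (T : SimpleGraph ι) (bag : ι → Finset V),
      IsTreeDecomposition src dst T bag →
      (∀ i, ∃ (a : ℕ) (Q : Fin a → Finset V) (R : Finset V), 2 * a + R.card ≤ 5 ∧
        (∀ j, ∀ x ∈ Q j, ∀ y ∈ Q j, x ≠ y → ∃ e, Joins src dst e x y) ∧
        ∀ x ∈ bag i, x ∈ R ∨ ∃ j, x ∈ Q j) →
      Conclusion S := by
  classical
  intro n S0 V E _ _ _ _ src dst vec hv hr ι _ T bag hT hQ
  refine result n S0 V E src dst vec hv hr ι T bag hT (fun i S hSX hcard => ?_)
  obtain ⟨a, Q, R, hle, hcl, hcov⟩ := hQ i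
  by_cases hj : ∃ j, 3 ≤ (S ∩ Q j).card
  · obtain ⟨j, hj⟩ := hj
    obtain ⟨x, hx, y, hy, z, hz, hxy, hxz, hyz⟩ := Finset.two_lt_card.1
      (show 2 < (S ∩ Q j).card by omega)
    rw [Finset.mem_inter] at hx hy hz
    obtain ⟨e1, h1⟩ := hcl j x hx.2 y hy.2 hxy
    obtain ⟨e2, h2⟩ := hcl j y hy.2 z hz.2 hyz
    obtain ⟨e3, h3⟩ := hcl j z hz.2 x hx.2 hxz.symm
    have key : ∀ {x y z w : V} {e : E}, Joins src dst e x y → Joins src dst e z w →
        (x = z ∧ y = w) ∨ (x = w ∧ y = z) := by
      rintro x y z w e (⟨p, q⟩ | ⟨p, q⟩) (⟨r, s⟩ | ⟨r, s⟩)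
      · exact Or.inl ⟨p.symm.trans r, q.symm.trans s⟩
      · exact Or.inr ⟨p.symm.trans r, q.symm.trans s⟩
      · exact Or.inr ⟨q.symm.trans s, p.symm.trans r⟩
      · exact Or.inl ⟨q.symm.trans s, p.symm.trans r⟩
    have n12 : e1 ≠ e2 := by
      rintro rfl
      rcases key h1 h2 with ⟨p, _⟩ | ⟨p, _⟩
      · exact hxy p
      · exact hxz p
    have n13 : e1 ≠ e3 := by
      rintro rfl
      rcases key h1 h3 with ⟨p, _⟩ | ⟨_, p⟩
      · exact hxz p
      · exact hyz p
    have n23 : e2 ≠ e3 := by
      rintro rfl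
      rcases key h2 h3 with ⟨p, _⟩ | ⟨p, _⟩
      · exact hyz p
      · exact hxy p.symm
    refine ⟨1, by norm_num, ![x, y, z], ![e1, e2, e3], ?_, ?_, fun i => ⟨?_, ?_⟩⟩
    · intro i j hij
      fin_cases i <;> fin_cases j <;> simp_all
    · intro i j hij
      fin_cases i <;> fin_cases j <;> simp_all [eq_comm]
    · fin_cases i
      · exact hx.1
      · exact hy.1
      · exact hz.1
    · fin_cases i
      · exact h1
      · exact h2
      · exact h3
  · exfalso
    push Not at hj
    have h1 : S ⊆ R ∪ Finset.univ.biUnion (fun j => S ∩ Q j) := by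
      intro x hx
      rcases hcov x (hSX hx) with h | ⟨j, h⟩
      · exact Finset.mem_union_left _ h
      · exact Finset.mem_union_right _ (Finset.mem_biUnion.2 ⟨j, Finset.mem_univ _,
          Finset.mem_inter.2 ⟨hx, h⟩⟩)
    have h2 := (Finset.card_le_card h1).trans (Finset.card_union_le _ _)
    have h3 : (Finset.univ.biUnion (fun j => S ∩ Q j)).card ≤ a * 2 := by
      refine Finset.card_biUnion_le.trans ?_
      calc ∑ j : Fin a, (S ∩ Q j).card ≤ ∑ _j : Fin a, 2 :=
            Finset.sum_le_sum fun j _ => by have := hj j; omega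
        _ = a * 2 := by simp
    omega

end Pool.Agent.Results.MP_aa6b05_co.TreeIndependenceTwo
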