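import Mathlib
import Pool.Agent.R890.FF.Blk
import Pool.Agent.R890.FF.Cov

set_option autoImplicit false

/-!
# Cographic 2-blocks of graphs with a vertex cover with at most nine vertices (MP_aa6b05_co)

Let `S` represent over GF(2) the cographic matroid `M*(G)` of a graph `G` in which at most nine
vertices meet all edges (apart from loops).  If `S` is a 2-block then `S` has a RESTRICTION
`M*(P₁₀)` (no contraction is needed), and if it is tangential it is `M*(P₁₀)`.  The rank, the order
and the number of vertices of odd degree are unbounded.  In terms of the matroid: the elements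
of `M*(G)` which are not loops of `M(G)` are covered by at most nine of the circuits (or disjoint
unions of circuits) given by the stars of the vertices.

Proof.  A 2-block has no zero vector, so `G` has no isthmus, and it has no flow over the group of
order four which is nowhere zero.  Let `H` be a graph obtained from `G` by identification of
vertices without such a flow and without Petersen quotient, with as few edges (apart from loops) as
possible; it has no circuit with at most four edges (Kempe chains), no vertex with exactly two
edges, and at least 18 vertices of odd degree (starting library `TH362/TF`).  Counting the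
neighbours of the neighbours of the vertices of the cover shows that there are at most 18 odd
vertices, and that in the case of equality the edges which leave the cover form a bipartite cubic
graph and all degrees inside the cover are even; then `H` has a flow by Hall's theorem.  Hence there
is no such `H`, and `G` has a Petersen quotient.
-/

namespace Pool.Agent.Results.MP_aa6b05_co.VertexCoverNine

/-- The incidence vector of the vertex `v` over GF(2): the coordinate of an edge is the number of
its ends which are `v`, modulo 2 (so loops give 0). -/
def star {V E : Type} [DecidableEq V] (src dst : E → V) (v : V) : E → ZMod 2 :=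
  fun e => (if src e = v then 1 else 0) + (if dst e = v then 1 else 0)

/-- The vectors `vec e` represent the cographic matroid of the graph: the linear relations between
them are exactly the elements of the cut space, which is spanned by the incidence vectors. -/
def RepresentsCographic {V E : Type} [DecidableEq V] [Fintype E] (src dst : E → V) {n : ℕ}
    (vec : E → Fin n → ZMod 2) : Prop :=
  ∀ x : E → ZMod 2, ∑ e, x e • vec e = 0 ↔
    x ∈ Submodule.span (ZMod 2) (Set.range (star src dst))

/-- The degree of the vertex `v` (a loop counts twice). -/
def degree {V E : Type} [DecidableEq V] [Fintype E] (src dst : E → V) (v : V) : ℕ :=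
  ∑ e, ((if src e = v then 1 else 0) + (if dst e = v then 1 else 0))

/-- The simple matroid represented by the set `S` of vectors over GF(2) is a 2-block: `S` has no
zero vector and no linear map to the plane over GF(2) is nonzero on all of `S`. -/
def IsTwoBlock {n : ℕ} (S : Set (Fin n → ZMod 2)) : Prop :=
  (0 : Fin n → ZMod 2) ∉ S ∧
    ¬ ∃ L : (Fin n → ZMod 2) →ₗ[ZMod 2] (Fin 2 → ZMod 2), ∀ s ∈ S, L s ≠ 0

/-- `S` represents a tangential 2-block: it is a 2-block, and no proper minor without loops
(contract `C`, keep `T`) is a 2-block. This is the hypothesis of the frozen statement S10691. -/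
def IsTangential {n : ℕ} (S : Set (Fin n → ZMod 2)) : Prop :=
  IsTwoBlock S ∧
    ∀ C T : Set (Fin n → ZMod 2), C ⊆ S → T ⊆ S → T ≠ S →
      (∀ t ∈ T, t ∉ Submodule.span (ZMod 2) C) →
      ∃ L : (Fin n → ZMod 2) →ₗ[ZMod 2] (Fin 2 → ZMod 2),
        (∀ c ∈ C, L c = 0) ∧ ∀ t ∈ T, L t ≠ 0

/-- The cut space of the Petersen graph: vertices `0, ..., 9`, edges `0, ..., 14`. -/
def petersenCuts : Submodule (ZMod 2) (Fin 15 → ZMod 2) :=
  Submodule.span (ZMod 2) (Set.range (fun v : Fin 10 => fun k : Fin 15 =>
    if (![0,1,2,3,4,5,6,7,8,9,0,1,2,3,4] : Fin 15 → Fin 10) k = v ∨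
       (![1,2,3,4,0,7,8,9,5,6,5,6,7,8,9] : Fin 15 → Fin 10) k = v
    then (1 : ZMod 2) else 0))

/-- Let `S` be a set of vectors over GF(2) which represents the cographic matroid of a graph
(parallel elements are represented by the same vector).  Suppose that there is a set `C` of at most
nine vertices of the graph such that every edge which is not a loop has an end in `C`.  If `S` is a
2-block then `S` contains 15 different vectors which represent the cographic matroid of the Petersen
graph; if `S` is a tangential 2-block then `S` is the cographic matroid of the Petersen graph, in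
the form of the frozen statement S10691. -/
theorem result :
    ∀ (n : ℕ) (S : Set (Fin n → ZMod 2)) (V E : Type) [Fintype V] [DecidableEq V] [Fintype E]
      [DecidableEq E] (src dst : E → V) (vec : E → Fin n → ZMod 2),
      RepresentsCographic src dst vec → Set.range vec = S →
      ∀ C : Finset V, C.card ≤ 9 → (∀ e, src e ≠ dst e → src e ∈ C ∨ dst e ∈ C) →
      (IsTwoBlock S → ∃ t : Fin 15 → Fin n → ZMod 2,
        Set.range t ⊆ S ∧ Function.Injective t ∧
        ∀ x : Fin 15 → ZMod 2, ∑ k, x k • t k = 0 ↔ x ∈ petersenCuts) ∧
      (IsTangential S → ∃ ψ : (Fin 15 → ZMod 2) →ₗ[ZMod 2] (Fin n → ZMod 2),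
        LinearMap.ker ψ = petersenCuts ∧
        ⇑ψ '' Set.range (fun k : Fin 15 => (Pi.single k (1 : ZMod 2) : Fin 15 → ZMod 2)) = S) := by
  classical
  intro n S V E _ _ _ _ src dst vec hv hr C h9 hC
  have hd : TH362.TF.N1 src dst Finset.univ →
      TH362.TF.NZ src dst Finset.univ ∨ TH362.TF.PQ src dst Finset.univ := fun hn =>
    R890.FF.cover9 src dst Finset.univ C hn (fun e _ hne => hC e hne) h9
  have main : IsTwoBlock S → ∃ t : Fin 15 → Fin n → ZMod 2,
        Set.range t ⊆ S ∧ Function.Injective t ∧
        ∀ x : Fin 15 → ZMod 2, ∑ k, x k • t k = 0 ↔ x ∈ petersenCuts := fun h =>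
    R890.FF.blk1 (hv : TH676.Blk.RepCo src dst vec) hr hd h.1 h.2
  refine ⟨main, ?_⟩
  rintro ⟨h2, htan⟩
  obtain ⟨t, ht, _, hx⟩ := main h2
  exact R890.FF.blk2 htan ht hx

end Pool.Agent.Results.MP_aa6b05_co.VertexCoverNine
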